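import Pool.Agent.LPC.Stmts

/-!
# Row CLS of block LPC: the class inequality
-/

set_option autoImplicit false

open MeasureTheory Filter Topology
open scoped RealInnerProductSpace

namespace Pool.Agent.LPC.H19

open Pool.Agent.LPC

theorem cls (h1 : ClaStmt) (h2 : QuoStmt) : ClsStmt := by
  classical
  intro n s τ L hn hs hL hτ2 hτ T hT
  obtain ⟨c, hc⟩ := h2 n s L hs hL
  have hN : (2 : ℝ) ≤ n := by exact_mod_cast hn
  have hτ4 : τ < 4 := by
    by_contra h
    have h4 : 4 ≤ τ := not_lt.mp h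
    have : 4 * ((n : ℝ) - 1) ≤ τ * (n - 1) := mul_le_mul_of_nonneg_right h4 (by linarith)
    linarith
  have hsplit : ∑ v ∈ T, wt n s τ (‖v‖ ^ 2) =
      ∑ k : Fin (2 ^ n), ∑ v ∈ T with c v = k, wt n s τ (‖v‖ ^ 2) :=
    (Finset.sum_fiberwise T c _).symm
  rw [hsplit, ← Finset.add_sum_erase Finset.univ _ (Finset.mem_univ (c 0))]
  have h0 : ∑ v ∈ T with c v = c 0, wt n s τ (‖v‖ ^ 2) = 0 := by
    apply Finset.sum_eq_zero
    intro v hv
    rw [Finset.mem_filter] at hv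
    obtain ⟨hvT, hvc⟩ := hv
    obtain ⟨hvL, hv0⟩ := hT v hvT
    obtain ⟨z, hz, hvz⟩ := hc v hvL 0 L.zero_mem hvc
    rw [sub_zero] at hvz
    have hz0 : z ≠ 0 := by
      intro h
      rw [h, smul_zero] at hvz
      exact hv0 hvz
    have e1 : ‖v‖ ^ 2 = 4 * ‖z‖ ^ 2 := by
      rw [hvz, norm_smul, Real.norm_of_nonneg (by norm_num : (0 : ℝ) ≤ 2)]
      ring
    have g1 : s ≤ ‖z‖ ^ 2 := hL z hz hz0
    have t1 : τ * s < 4 * s := mul_lt_mul_of_pos_right hτ4 hs
    have t2 : (4 - τ) * s < 4 * s := mul_lt_mul_of_pos_right (by linarith) hs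
    unfold wt
    rw [if_neg (by linarith), if_neg (by linarith)]
  have h3 : ∀ k ∈ Finset.univ.erase (c 0),
      ∑ v ∈ T with c v = k, wt n s τ (‖v‖ ^ 2) ≤ 2 := by
    intro k _
    apply h1 n s τ L hn hs hL hτ2 hτ
    · intro v hv
      exact hT v (Finset.mem_filter.mp hv).1
    · intro v hv w hw
      rw [Finset.mem_filter] at hv hw
      exact hc v (hT v hv.1).1 w (hT w hw.1).1 (hv.2.trans hw.2.symm)
  have h4 := Finset.sum_le_sum h3
  rw [Finset.sum_const, Finset.card_erase_of_mem (Finset.mem_univ _), Finset.card_univ,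
    Fintype.card_fin, nsmul_eq_mul, Nat.cast_sub Nat.one_le_two_pow] at h4
  push_cast at h4
  linarith

end Pool.Agent.LPC.H19
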