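import Pool.Agent.LPC.Stmts

/-!
# Row COS of block LPC: two vectors of the same class modulo `2L`
-/

set_option autoImplicit false

open MeasureTheory Filter Topology
open scoped RealInnerProductSpace

namespace Pool.Agent.LPC.H19

open Pool.Agent.LPC

/-- the elementary inequality -/
theorem box (N a b A s τ : ℝ) (hN : 2 ≤ N) (ha : 0 ≤ a) (hb : 0 ≤ b) (haA : a ≤ A) (hbA : b ≤ A)
    (hs : 0 < s) (hA : A ^ 2 = τ * s) (hτ : τ * (N - 1) < 2 * N) :
    N * (a ^ 2 + b ^ 2 - 4 * s) < 2 * (a * b) := by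
  have h1 : 0 ≤ (A - a) * (N * A + N * a - 2 * b) := by
    apply mul_nonneg (by linarith)
    have h2 : 2 * A ≤ N * A := mul_le_mul_of_nonneg_right hN (by linarith)
    have h3 : 0 ≤ N * a := mul_nonneg (by linarith) ha
    linarith
  have h4 : 0 ≤ (A - b) * (N * A + N * b - 2 * A) := by
    apply mul_nonneg (by linarith)
    have h2 : 2 * A ≤ N * A := mul_le_mul_of_nonneg_right hN (by linarith)
    have h3 : 0 ≤ N * b := mul_nonneg (by linarith) hb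
    linarith
  have h5 : (N - 1) * A ^ 2 < 2 * N * s := by
    rw [hA]
    have : (N - 1) * (τ * s) = (τ * (N - 1)) * s := by ring
    rw [this]
    exact mul_lt_mul_of_pos_right hτ hs
  nlinarith

theorem cos : CosStmt := by
  intro n s L hn hs hL x hx y hy z hz hxy hne hne'
  have hz0 : z ≠ 0 := by
    intro h
    rw [h, smul_zero, sub_eq_zero] at hxy
    exact hne hxy
  have hxy' : x + y = (2 : ℝ) • (z + y) := by
    rw [smul_add, ← hxy, two_smul]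
    abel
  have hzy : z + y ≠ 0 := by
    intro h
    rw [h, smul_zero] at hxy'
    exact hne' (eq_neg_of_add_eq_zero_left hxy')
  have e1 : ‖x - y‖ ^ 2 = 4 * ‖z‖ ^ 2 := by
    rw [hxy, norm_smul, Real.norm_of_nonneg (by norm_num : (0 : ℝ) ≤ 2)]
    ring
  have e2 : ‖x + y‖ ^ 2 = 4 * ‖z + y‖ ^ 2 := by
    rw [hxy', norm_smul, Real.norm_of_nonneg (by norm_num : (0 : ℝ) ≤ 2)]
    ring
  have g1 : s ≤ ‖z‖ ^ 2 := hL z hz hz0
  have g2 : s ≤ ‖z + y‖ ^ 2 := hL (z + y) (L.add_mem hz hy) hzy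
  have f1 := norm_sub_sq_real x y
  have f2 := norm_add_sq_real x y
  refine ⟨by linarith, ?_⟩
  intro τ hτ hxt hyt
  have hN : (2 : ℝ) ≤ n := by exact_mod_cast hn
  have hA0 : 0 ≤ τ * s := le_trans (sq_nonneg _) hxt
  have hb := box n ‖x‖ ‖y‖ (Real.sqrt (τ * s)) s τ hN (norm_nonneg _) (norm_nonneg _)
    (Real.le_sqrt_of_sq_le hxt) (Real.le_sqrt_of_sq_le hyt) hs (Real.sq_sqrt hA0) hτ
  have hn0 : (0 : ℝ) < n := by linarith
  rw [lt_div_iff₀ hn0]
  have h6 : 2 * |⟪x, y⟫| ≤ ‖x‖ ^ 2 + ‖y‖ ^ 2 - 4 * s := by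
    rcases abs_cases (⟪x, y⟫ : ℝ) with ⟨h, -⟩ | ⟨h, -⟩
    · rw [h]
      linarith
    · rw [h]
      linarith
  have h7 : (n : ℝ) * (2 * |⟪x, y⟫|) ≤ n * (‖x‖ ^ 2 + ‖y‖ ^ 2 - 4 * s) :=
    mul_le_mul_of_nonneg_left h6 hn0.le
  linarith

end Pool.Agent.LPC.H19
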